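import Mathlib

set_option autoImplicit false

open MeasureTheory Module Submodule
open scoped ENNReal Pointwise

namespace Pool.Agent.Helper11_Rado

/-- Averaging over translates of a lattice: a bounded measurable set `U` contains a finite set `X` of
points that are congruent modulo the lattice spanned by `b`, with `|X| * covolume ≥ volume U`. -/
theorem exists_congruent_points {E : Type*} [NormedAddCommGroup E] [InnerProductSpace ℝ E]
    [FiniteDimensional ℝ E] [MeasurableSpace E] [BorelSpace E] {ι : Type*} [Finite ι]
    (b : Basis ι ℝ E) (U : Set E) (hU : MeasurableSet U) (hb : Bornology.IsBounded U) :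
    ∃ X : Finset E, (X : Set E) ⊆ U ∧
      (∀ x ∈ X, ∀ y ∈ X, x - y ∈ span ℤ (Set.range b)) ∧
      volume U ≤ (X.card : ℝ≥0∞) * volume (ZSpan.fundamentalDomain b) := by
  classical
  set L := (span ℤ (Set.range b)).toAddSubgroup with hL
  have hfd := ZSpan.isAddFundamentalDomain' b (volume : Measure E)
  have hcount : Countable L := inferInstanceAs (Countable (span ℤ (Set.range b)))
  set D := ZSpan.fundamentalDomain b with hD
  have hDm : MeasurableSet D := ZSpan.fundamentalDomain_measurableSet b
  have hD0 : volume D ≠ 0 := ZSpan.measure_fundamentalDomain_ne_zero b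
  have hDb : Bornology.IsBounded D := ZSpan.fundamentalDomain_isBounded b
  have hDt : volume D ≠ ∞ := hDb.measure_lt_top.ne
  have h1 : volume U = ∑' g : L, volume ((g +ᵥ U) ∩ D) := hfd.measure_eq_tsum U
  have hm : ∀ g : L, MeasurableSet (g +ᵥ U) := fun g => hU.const_vadd g
  set f : E → ℝ≥0∞ := fun x => ∑' g : L, (g +ᵥ U).indicator 1 x with hf
  have hfm : Measurable f := by
    refine Measurable.tsum fun g => ?_
    exact measurable_one.indicator (hm g)
  have h2 : volume U = ∫⁻ x in D, f x := by
    rw [h1, hf, lintegral_tsum (fun g => (measurable_one.indicator (hm g)).aemeasurable)]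
    refine tsum_congr fun g => ?_
    rw [lintegral_indicator_one (hm g), Measure.restrict_apply (hm g)]
  obtain ⟨x, hxD, hx⟩ := exists_setLAverage_le (μ := volume) (s := D) (f := f) hD0
    hDm.nullMeasurableSet (by rw [← h2]; exact hb.measure_lt_top.ne)
  -- the set of lattice vectors g with x - g ∈ U is finite
  have hfin : {g : L | x ∈ g +ᵥ U}.Finite := by
    have hb' : Bornology.IsBounded ((fun u => x - u) '' U) := by
      have : (fun u => x - u) '' U = (fun u => x + u) '' ((fun u => -u) '' U) := by
        rw [Set.image_image]; simp [sub_eq_add_neg]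
      rw [this]
      have h3 : Bornology.IsBounded ((fun u : E => -u) '' U) := by
        rw [Set.image_neg_eq_neg]; exact hb.neg
      have h3' : Bornology.IsBounded (x +ᵥ ((fun u : E => -u) '' U)) := h3.vadd x
      exact h3'
    have h4 := ZSpan.setFinite_inter b hb'
    refine Set.Finite.of_finite_image (f := fun g : L => (g : E)) (h4.subset ?_)
      Subtype.val_injective.injOn
    rintro _ ⟨g, hg, rfl⟩
    refine ⟨?_, g.2⟩
    obtain ⟨u, hu, hux⟩ := hg
    refine ⟨u, hu, ?_⟩
    have : (g : E) + u = x := hux
    simp only
    rw [← this]; abel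
  set T : Finset L := hfin.toFinset with hT
  have hfx : f x = (T.card : ℝ≥0∞) := by
    have h5 : f x = ∑ g ∈ T, (g +ᵥ U).indicator 1 x := by
      refine tsum_eq_sum fun g hg => ?_
      have : x ∉ g +ᵥ U := by simpa [hT] using hg
      simp [this]
    rw [h5, Finset.sum_congr rfl (g := fun _ => (1 : ℝ≥0∞))]
    · simp
    · intro g hg
      have : x ∈ g +ᵥ U := by simpa [hT] using hg
      simp [this]
  refine ⟨T.image (fun g : L => x - (g : E)), ?_, ?_, ?_⟩
  · intro y hy
    simp only [Finset.coe_image, Set.mem_image, Finset.mem_coe] at hy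
    obtain ⟨g, hg, rfl⟩ := hy
    have : x ∈ g +ᵥ U := by simpa [hT] using hg
    obtain ⟨u, hu, hux⟩ := this
    have : (g : E) + u = x := hux
    rw [← this]; simpa using hu
  · intro y hy z hz
    simp only [Finset.mem_image] at hy hz
    obtain ⟨g, -, rfl⟩ := hy
    obtain ⟨g', -, rfl⟩ := hz
    have : x - (g : E) - (x - (g' : E)) = (g' : E) - g := by abel
    rw [this]
    exact sub_mem g'.2 g.2
  · rw [Finset.card_image_of_injective _ (fun g g' h => by
      apply Subtype.ext; exact sub_right_injective h : Function.Injective fun g : L => x - (g : E)), ← hfx]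
    rw [setLAverage_eq] at hx
    rw [h2]
    calc ∫⁻ x in D, f x = (∫⁻ x in D, f x) / volume D * volume D :=
          (ENNReal.div_mul_cancel hD0 hDt).symm
      _ ≤ f x * volume D := by gcongr

end Pool.Agent.Helper11_Rado
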