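import Mathlib

set_option autoImplicit false

open MeasureTheory Module Submodule
open scoped ENNReal Pointwise

namespace Pool.Agent.Helper11_Rado

/-- A basis of the plane with prescribed coordinates, the area of its fundamental parallelogram, and
the description of its integer span. -/
theorem exists_basis (p q r s : ℝ) (h : p * s - q * r ≠ 0) :
    ∃ b : Basis (Fin 2) ℝ (EuclideanSpace ℝ (Fin 2)),
      volume (ZSpan.fundamentalDomain b) = ENNReal.ofReal |p * s - q * r| ∧
      ∀ v ∈ span ℤ (Set.range b), ∃ m n : ℤ, v 0 = m * p + n * r ∧ v 1 = m * q + n * s := by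
  classical
  set b₀ : Basis (Fin 2) ℝ (EuclideanSpace ℝ (Fin 2)) :=
    (EuclideanSpace.basisFun (Fin 2) ℝ).toBasis with hb₀
  set v : Fin 2 → EuclideanSpace ℝ (Fin 2) := ![!₂[p, q], !₂[r, s]] with hv
  have hdet : b₀.det v = p * s - q * r := by
    rw [Basis.det_apply, Matrix.det_fin_two]
    simp [Basis.toMatrix_apply, hb₀, hv]
    ring
  have hunit : IsUnit (b₀.det v) := by rw [hdet]; exact isUnit_iff_ne_zero.mpr h
  obtain ⟨hli, hsp⟩ := (Basis.is_basis_iff_det b₀).mpr hunit
  set b := Basis.mk hli hsp.ge with hb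
  have hbv : (b : Fin 2 → EuclideanSpace ℝ (Fin 2)) = v := Basis.coe_mk hli hsp.ge
  refine ⟨b, ?_, ?_⟩
  · rw [ZSpan.measure_fundamentalDomain b volume b₀, hbv, hdet]
    have h1 : volume (ZSpan.fundamentalDomain b₀) = 1 := by
      rw [measure_congr (ZSpan.fundamentalDomain_ae_parallelepiped b₀ volume), hb₀]
      simpa using (EuclideanSpace.basisFun (Fin 2) ℝ).volume_parallelepiped
    rw [h1, mul_one]
  · intro w hw
    rw [hbv] at hw
    have hr : Set.range v = {v 0, v 1} := by
      ext x; simp [Fin.exists_fin_two, eq_comm]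
    rw [hr, Submodule.mem_span_pair] at hw
    obtain ⟨m, n, rfl⟩ := hw
    refine ⟨m, n, ?_, ?_⟩
    · simp [hv]
    · simp [hv]

end Pool.Agent.Helper11_Rado
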