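import Mathlib
import Pool.Agent.Helper11_Rado.Basic

set_option autoImplicit false

open MeasureTheory Module Submodule
open scoped ENNReal Pointwise

namespace Pool.Agent.Helper11_Rado

/-- The area of a union of finitely many compact convex sets of area `a` with pairwise disjoint
interiors is `|S| * a`. -/
theorem volume_biUnion_of_disjoint_interior {n : ℕ}
    (K : Fin n → Set (EuclideanSpace ℝ (Fin 2))) (a : ℝ)
    (hK : ∀ i, Convex ℝ (K i) ∧ IsCompact (K i) ∧ (volume (K i)).toReal = a)
    (S : Finset (Fin n))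
    (hS : (S : Set (Fin n)).Pairwise (fun i j => Disjoint (interior (K i)) (interior (K j)))) :
    (S.card : ℝ) * a ≤ (volume (⋃ i ∈ S, K i)).toReal := by
  have hint : ∀ i, volume (interior (K i)) = volume (K i) := by
    intro i
    refine le_antisymm (measure_mono interior_subset) ?_
    have h1 : K i ⊆ interior (K i) ∪ frontier (K i) := by
      intro x hx
      by_cases h : x ∈ interior (K i)
      · exact Or.inl h
      · exact Or.inr ⟨subset_closure hx, h⟩
    calc volume (K i) ≤ volume (interior (K i) ∪ frontier (K i)) := measure_mono h1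
      _ ≤ volume (interior (K i)) + volume (frontier (K i)) := measure_union_le _ _
      _ = volume (interior (K i)) := by rw [(hK i).1.addHaar_frontier volume, add_zero]
  have hfin : ∀ i, volume (K i) ≠ ∞ := fun i => (hK i).2.1.measure_lt_top.ne
  have hle : (∑ i ∈ S, volume (K i)) ≤ volume (⋃ i ∈ S, K i) := by
    calc (∑ i ∈ S, volume (K i)) = ∑ i ∈ S, volume (interior (K i)) :=
          Finset.sum_congr rfl fun i _ => (hint i).symm
      _ = volume (⋃ i ∈ S, interior (K i)) :=
          (measure_biUnion_finset hS fun i _ => isOpen_interior.measurableSet).symm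
      _ ≤ volume (⋃ i ∈ S, K i) := measure_mono (Set.iUnion₂_mono fun i _ => interior_subset)
  have hfinU : volume (⋃ i ∈ S, K i) ≠ ∞ := by
    have : IsCompact (⋃ i ∈ S, K i) := S.isCompact_biUnion fun i _ => (hK i).2.1
    exact this.measure_lt_top.ne
  have h2 := ENNReal.toReal_mono hfinU hle
  rw [ENNReal.toReal_sum (fun i _ => hfin i)] at h2
  simp only [(hK _).2.2, Finset.sum_const, nsmul_eq_mul] at h2
  exact h2

/-- Selection principle: if any two members containing points that differ by a nonzero lattice vector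
have disjoint interiors, then some pairwise interior-disjoint subfamily has at least
`area of the union / covolume` members. -/
theorem exists_subfamily {n : ℕ}
    (K : Fin n → Set (EuclideanSpace ℝ (Fin 2)))
    (hK : ∀ i, IsCompact (K i))
    (b : Basis (Fin 2) ℝ (EuclideanSpace ℝ (Fin 2)))
    (hne : ∀ i, (interior (K i)).Nonempty)
    (hb : ∀ i j, ∀ x ∈ K i, ∀ y ∈ K j, x - y ∈ span ℤ (Set.range b) → x ≠ y →
      Disjoint (interior (K i)) (interior (K j))) :
    ∃ S : Finset (Fin n),
      (S : Set (Fin n)).Pairwise (fun i j => Disjoint (interior (K i)) (interior (K j))) ∧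
      volume (⋃ i, K i) ≤ (S.card : ℝ≥0∞) * volume (ZSpan.fundamentalDomain b) := by
  classical
  rcases isEmpty_or_nonempty (Fin n) with hn | hn
  · refine ⟨∅, by simp, ?_⟩
    simp
  have hUc : IsCompact (⋃ i, K i) := isCompact_iUnion hK
  obtain ⟨X, hXU, hXd, hXv⟩ := exists_congruent_points b (⋃ i, K i) hUc.measurableSet hUc.isBounded
  have hch : ∀ x : EuclideanSpace ℝ (Fin 2), x ∈ X → ∃ i, x ∈ K i := fun x hx => by
    simpa using hXU hx
  choose! φ hφ using hch
  have hinj : Set.InjOn φ (X : Set (EuclideanSpace ℝ (Fin 2))) := by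
    intro x hx y hy hxy
    by_contra hne'
    have hd := hb (φ x) (φ y) x (hφ x hx) y (hφ y hy) (hXd x hx y hy) hne'
    rw [hxy, disjoint_self] at hd
    exact (hne (φ y)).ne_empty hd
  refine ⟨X.image φ, ?_, ?_⟩
  · intro i hi j hj hij
    simp only [Finset.coe_image, Set.mem_image, Finset.mem_coe] at hi hj
    obtain ⟨x, hx, rfl⟩ := hi
    obtain ⟨y, hy, rfl⟩ := hj
    exact hb _ _ x (hφ x hx) y (hφ y hy) (hXd x hx y hy) (fun h => hij (by rw [h]))
  · rw [Finset.card_image_of_injOn hinj]
    exact hXv

/-- A convex set of positive area in the plane has nonempty interior. -/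
theorem interior_nonempty_of_pos {s : Set (EuclideanSpace ℝ (Fin 2))} (hs : Convex ℝ s)
    (h : volume s ≠ 0) : (interior s).Nonempty := by
  by_contra hne
  rw [Set.not_nonempty_iff_eq_empty] at hne
  have h1 : s ⊆ frontier s := by
    intro x hx
    exact ⟨subset_closure hx, by rw [hne]; exact fun h => h⟩
  exact h (measure_mono_null h1 (hs.addHaar_frontier volume))

/-- Points of the interior of a bounded set are at distance strictly less than the diameter from any
point of the set. -/
theorem dist_lt_diam_of_mem_interior {s : Set (EuclideanSpace ℝ (Fin 2))}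
    (hs : Bornology.IsBounded s) {x w : EuclideanSpace ℝ (Fin 2)} (hx : x ∈ s)
    (hw : w ∈ interior s) : dist x w < Metric.diam s := by
  obtain ⟨ε, hε, hball⟩ := Metric.mem_nhds_iff.mp (mem_interior_iff_mem_nhds.mp hw)
  obtain ⟨v, hv⟩ : ∃ v : EuclideanSpace ℝ (Fin 2), ‖v‖ = 1 ∧ dist x (w + (ε / 2) • v) =
      dist x w + ε / 2 := by
    by_cases hxw : x = w
    · obtain ⟨v, hv⟩ := exists_norm_eq (EuclideanSpace ℝ (Fin 2)) (zero_le_one (α := ℝ))
      refine ⟨v, hv, ?_⟩
      rw [hxw, dist_self, dist_eq_norm]
      simp [norm_smul, hv, abs_of_pos hε]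
    · have hne : w - x ≠ 0 := sub_ne_zero.mpr (Ne.symm hxw)
      have hn : ‖w - x‖ ≠ 0 := norm_ne_zero_iff.mpr hne
      refine ⟨‖w - x‖⁻¹ • (w - x), by rw [norm_smul, norm_inv, norm_norm, inv_mul_cancel₀ hn], ?_⟩
      rw [dist_comm, dist_eq_norm, dist_comm, dist_eq_norm]
      have : w + (ε / 2) • ‖w - x‖⁻¹ • (w - x) - x = (1 + (ε / 2) * ‖w - x‖⁻¹) • (w - x) := by
        rw [add_smul, one_smul, mul_smul]; abel
      rw [this, norm_smul, Real.norm_of_nonneg (by positivity)]
      field_simp
  have hmem : w + (ε / 2) • v ∈ s := by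
    apply hball
    rw [Metric.mem_ball, dist_eq_norm]
    simp only [add_sub_cancel_left, norm_smul, hv.1, mul_one, Real.norm_eq_abs]
    rw [abs_of_pos (by positivity)]; linarith
  have := Metric.dist_le_diam_of_mem hs hx hmem
  rw [hv.2] at this
  linarith

end Pool.Agent.Helper11_Rado
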