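import Mathlib
import Pool.Agent.Helper11_Rado.Select
import Pool.Agent.Helper11_Rado.Lattice

set_option autoImplicit false

open MeasureTheory Module Submodule
open scoped ENNReal Pointwise

namespace Pool.Agent.Results.MP_b7794d_co.HexagonalConstant

/-- Every finite family of compact convex plane sets of common area `a`, perimeter `p` and diameter
`d > 0` has a subfamily with pairwise disjoint interiors covering at least the fraction
`a / (2 √3 d ^ 2)` of the area of the union. -/
theorem result :
    ∀ (n : ℕ) (K : Fin n → Set (EuclideanSpace ℝ (Fin 2))) (a p d : ℝ),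
      0 < d →
      (∀ i, Convex ℝ (K i) ∧ IsCompact (K i) ∧
        (volume (K i)).toReal = a ∧
        (MeasureTheory.Measure.hausdorffMeasure 1 (frontier (K i))).toReal = p ∧
        Metric.diam (K i) = d) →
      ∃ S : Finset (Fin n),
        (S : Set (Fin n)).Pairwise
          (fun i j => Disjoint (interior (K i)) (interior (K j))) ∧
        a / (2 * √3 * d ^ 2) * (volume (⋃ i, K i)).toReal ≤
          (volume (⋃ i ∈ S, K i)).toReal := by
  intro n K a p d hd hK
  have h3 : (0 : ℝ) < √3 := Real.sqrt_pos.mpr (by norm_num)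
  have h33 : √3 * √3 = (3 : ℝ) := Real.mul_self_sqrt (by norm_num)
  rcases isEmpty_or_nonempty (Fin n) with hn | hn
  · refine ⟨∅, by simp, by simp⟩
  obtain ⟨i₀⟩ := hn
  have ha0 : 0 ≤ a := by rw [← (hK i₀).2.2.1]; exact ENNReal.toReal_nonneg
  rcases ha0.eq_or_lt with ha | ha
  · refine ⟨∅, by simp, by simp [← ha]⟩
  -- the hexagonal lattice with minimal distance `2 d`
  obtain ⟨b, hbv, hbs⟩ := Helper11_Rado.exists_basis (2 * d) 0 d (√3 * d)
    (by simp only [zero_mul, sub_zero]; positivity)
  have hvol : volume (ZSpan.fundamentalDomain b) = ENNReal.ofReal (2 * √3 * d ^ 2) := by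
    rw [hbv]
    congr 1
    rw [zero_mul, sub_zero, abs_of_pos (by positivity)]
    ring
  have hmin : ∀ v ∈ span ℤ (Set.range b), v ≠ 0 → 2 * d ≤ ‖v‖ := by
    intro v hv hv0
    obtain ⟨m, k, h0, h1⟩ := hbs v hv
    have hmk : (m, k) ≠ (0, 0) := by
      rintro h
      obtain ⟨rfl, rfl⟩ := Prod.mk.inj h
      apply hv0
      ext i
      fin_cases i
      · simpa using h0
      · simpa using h1
    have hpos : (1 : ℤ) ≤ m * m + m * k + k * k := by
      have h4 : 0 < m * m + m * k + k * k := by
        by_contra hcon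
        have h5 : (2 * m + k) * (2 * m + k) + 3 * (k * k) ≤ 0 := by nlinarith
        have hk : k = 0 := by nlinarith [mul_self_nonneg (2 * m + k), mul_self_nonneg k]
        subst hk
        have hm : m = 0 := by nlinarith [mul_self_nonneg m]
        exact hmk (by rw [hm])
      omega
    have hpos' : (1 : ℝ) ≤ m * m + m * k + k * k := by exact_mod_cast hpos
    have hsq : ‖v‖ ^ 2 = 4 * d ^ 2 * ((m : ℝ) * m + m * k + k * k) := by
      rw [EuclideanSpace.norm_sq_eq, Fin.sum_univ_two, h0, h1]
      simp only [Real.norm_eq_abs, sq_abs]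
      ring_nf
      rw [show √3 ^ 2 = (3 : ℝ) by rw [sq]; exact h33]
      ring
    have : (2 * d) ^ 2 ≤ ‖v‖ ^ 2 := by
      rw [hsq]
      nlinarith [mul_pos hd hd]
    exact (sq_le_sq₀ (by positivity) (norm_nonneg v)).mp this
  have hint : ∀ i, (interior (K i)).Nonempty := fun i => by
    refine Helper11_Rado.interior_nonempty_of_pos (hK i).1 fun h => ?_
    have := (hK i).2.2.1
    rw [h] at this
    simp at this
    exact ha.ne this
  obtain ⟨S, hS, hvS⟩ := Helper11_Rado.exists_subfamily K (fun i => (hK i).2.1) b hint (by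
    intro i j x hx y hy hxy hne
    rw [Set.disjoint_left]
    intro w hwi hwj
    have h1 := Helper11_Rado.dist_lt_diam_of_mem_interior (hK i).2.1.isBounded hx hwi
    have h2 := Helper11_Rado.dist_lt_diam_of_mem_interior (hK j).2.1.isBounded hy hwj
    rw [(hK i).2.2.2.2] at h1
    rw [(hK j).2.2.2.2] at h2
    have h3 := hmin (x - y) hxy (sub_ne_zero.mpr hne)
    rw [← dist_eq_norm] at h3
    have := dist_triangle_right x y w
    linarith)
  refine ⟨S, hS, ?_⟩
  have hA : (volume (⋃ i, K i)).toReal ≤ S.card * (2 * √3 * d ^ 2) := by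
    rw [hvol] at hvS
    have := ENNReal.toReal_mono (by finiteness) hvS
    rwa [ENNReal.toReal_mul, ENNReal.toReal_natCast, ENNReal.toReal_ofReal (by positivity)] at this
  have hB := Helper11_Rado.volume_biUnion_of_disjoint_interior K a
    (fun i => ⟨(hK i).1, (hK i).2.1, (hK i).2.2.1⟩) S hS
  calc a / (2 * √3 * d ^ 2) * (volume (⋃ i, K i)).toReal
      ≤ a / (2 * √3 * d ^ 2) * (S.card * (2 * √3 * d ^ 2)) := by gcongr
    _ = S.card * a := by field_simp
    _ ≤ _ := hB

end Pool.Agent.Results.MP_b7794d_co.HexagonalConstant
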